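import Pool.Agent.U317.CE.Space

set_option autoImplicit false

namespace Pool.Agent.Results.MP_4e5648_mp.CircleEllipseTen

/-- Question Q2, in the form of the frozen statement of Q1: `P` parametrises the circle with
centre `F` and radius `r` in the plane through `F` spanned by `u₁, w₁`, and `Q` the ellipse with
focus `F`, semi-major axis `a` and eccentricity `e` in the plane through `F` spanned by `u₂, w₂`.
The critical pairs of the squared distance are finite in number and there are at most ten. -/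
theorem result :
    ∀ (F u₁ w₁ u₂ w₂ : EuclideanSpace ℝ (Fin 3)) (r a e : ℝ)
      (P P' Q Q' : ℝ → EuclideanSpace ℝ (Fin 3)),
      0 < r → 0 < a → 0 < e → e < 1 →
      ‖u₁‖ = 1 → ‖w₁‖ = 1 → inner ℝ u₁ w₁ = 0 →
      ‖u₂‖ = 1 → ‖w₂‖ = 1 → inner ℝ u₂ w₂ = 0 →
      (∀ s : ℝ, P s = F + (r * Real.cos s) • u₁ + (r * Real.sin s) • w₁) →
      (∀ s : ℝ, P' s = (-(r * Real.sin s)) • u₁ + (r * Real.cos s) • w₁) →
      (∀ t : ℝ, Q t = F + (a * (e + Real.cos t)) • u₂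
          + (a * Real.sqrt (1 - e ^ 2) * Real.sin t) • w₂) →
      (∀ t : ℝ, Q' t = (-(a * Real.sin t)) • u₂
          + (a * Real.sqrt (1 - e ^ 2) * Real.cos t) • w₂) →
      ({x : EuclideanSpace ℝ (Fin 3) × EuclideanSpace ℝ (Fin 3) |
          ∃ s t : ℝ, x = (P s, Q t) ∧ inner ℝ (P s - Q t) (P' s) = 0 ∧
            inner ℝ (P s - Q t) (Q' t) = 0}).Finite ∧
      ({x : EuclideanSpace ℝ (Fin 3) × EuclideanSpace ℝ (Fin 3) |
          ∃ s t : ℝ, x = (P s, Q t) ∧ inner ℝ (P s - Q t) (P' s) = 0 ∧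
            inner ℝ (P s - Q t) (Q' t) = 0}).ncard ≤ 10 := by
  intro F u₁ w₁ u₂ w₂ r a e P P' Q Q' hr ha he0 he1 h1 h2 h3 h4 h5 h6 hP hP' hQ hQ'
  have h := Pool.Agent.U317.CE.main_bound F u₁ w₁ u₂ w₂ r a e P P' Q Q' hr ha he0 he1
    h1 h2 h3 h4 h5 h6 hP hP' hQ hQ'
  have h10 : ((10 : ℕ) : ℕ∞) = 10 := rfl
  rw [← h10, Set.encard_le_coe_iff] at h
  obtain ⟨hf, n, hn, hle⟩ := h
  refine ⟨hf, ?_⟩
  rw [Set.ncard_def, hn]
  exact hle

end Pool.Agent.Results.MP_4e5648_mp.CircleEllipseTen
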